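import Mathlib
import Pool.Agent.CYM.Defs
import Pool.Agent.CYM.VRingA
import Pool.Agent.CYM.PeriodB
import Pool.Agent.CYM.Mv
import Pool.Agent.CYM.Final
import Pool.Agent.CYM.PrimeX

namespace Pool.Agent.Results.MP_f9f755_nt.CalabiYauDoubleCovers

open MvPolynomial Topology Pool.Agent.CYM

/-- Let `K` be a number field, `O` the valuation ring of a place of `K` unramified over `3`, and
`F` a form of multidegree `(4, ..., 4)` in `n` pairs of variables over `O` which is congruent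
modulo `3` to a product of binary quartic forms `f i` without `x0^2 x1^2`-term and without zeros on
the projective line over the residue field. Let `X` be the double cover `y^2 = F` of `(P^1)^n`
(a Calabi-Yau variety if smooth), embedded in projective space of dimension `3 ^ n`.

`X` is irreducible, and there are a finite set `E` of rational points of `X` and a finite set of
closed subsets `X_(J,c) : x_j = c_j (j in J)`, `J` not the set of all indices, such that at every
place of `K` every local Zariski closure `Z_x` of `X(K)` is a union of some points of `E` and of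
some of the sets `X_(J,c)`. In particular there are only finitely many sets `Z_x`. -/
theorem result (K : Type) [Field K] [NumberField K] (O : ValuationSubring K)
    (hO : ∀ x : K, x ∈ O.nonunits ↔ ∃ y ∈ O, x = 3 * y)
    (n : ℕ) (hn : 0 < n) (f : Fin n → Fin 5 → K) (hf : ∀ i k, f i k ∈ O) (hf2 : ∀ i, f i 2 = 0)
    (hroot : ∀ (i : Fin n) (v : Fin 2 → K), (∀ k, v k ∈ O) → (∃ k, v k ∉ O.nonunits) →
      qf (f i) v ∉ O.nonunits)
    (F : (Fin n → Fin 5) → K) (hF : ∀ m, ∃ y ∈ O, F m = ∏ i, f i (m i) + 3 * y) :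
    (Ideal.span (eqs F)).IsPrime ∧
    ∃ (E : Finset (Idx n → K)) (Λ : Finset (Finset (Fin n) × (Fin n → Fin 2 → K))),
      (∀ e ∈ E, e ≠ 0 ∧ ∀ g ∈ eqs F, eval e g = 0) ∧
      (∀ p ∈ Λ, p.1 ≠ Finset.univ ∧ ∀ i, p.2 i ≠ 0) ∧
      ∀ (L : Type) [NontriviallyNormedField L] [CompleteSpace L] (σ : K →+* L), DenseRange σ →
        (∀ x : Idx n → L, ∃ E' ⊆ E, ∃ Λ' ⊆ Λ, localIdeal σ (eqs F) x =
          {g | (∀ y ∈ E', ∀ t : K, eval (t • y) g = 0) ∧ ∀ p ∈ Λ', g ∈ subv F p.1 p.2}) ∧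
        {J : Set (MvPolynomial (Idx n) K) | ∃ x : Idx n → L, x ≠ 0 ∧
          (∀ g ∈ eqs F, eval₂ σ x g = 0) ∧ J = localIdeal σ (eqs F) x}.Finite := by
  have H : Hyp O F f := by
    refine ⟨hO, fun i => ⟨hf i, by rw [hf2 i]; exact dv_self_zero 1, fun v hv => ?_⟩, hf2,
      fun m => ?_⟩
    · rw [dv_one_iff hO]
      refine hroot i v hv.1 ?_
      obtain ⟨k, hk⟩ := hv.2
      exact ⟨k, fun h => hk ((dv_one_iff hO).2 h)⟩
    · obtain ⟨y, hy, h⟩ := hF m
      exact ⟨y, hy, by rw [h]; ring⟩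
  obtain ⟨M, hM, hper⟩ := period hO
  refine ⟨span_prime (mvh H hper) hn, ?_⟩
  obtain ⟨E, Λ, h1, h2, h3, h4⟩ := final H
  refine ⟨E, Λ, h1, fun p hp => ⟨h3 p hp, h2 p hp⟩, ?_⟩
  intro L _ _ σ hσ
  have := Pool.Agent.MazurC.properSpace σ hσ
  have h5 := h4 L σ hσ
  refine ⟨h5, ?_⟩
  classical
  refine ((Finset.finite_toSet (E.powerset ×ˢ Λ.powerset)).image fun p => desc F p.1 p.2).subset ?_
  rintro J ⟨x, -, -, rfl⟩
  obtain ⟨E', hE', Λ', hΛ', h⟩ := h5 x
  exact ⟨(E', Λ'), by simp [hE', hΛ'], h.symm⟩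

end Pool.Agent.Results.MP_f9f755_nt.CalabiYauDoubleCovers
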