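import Mathlib
import Pool.Agent.MazurT.Final

namespace Pool.Agent.Results.MP_f9f755_nt.DegreeAtMostThree

open MvPolynomial Topology Pool.Agent.MazurC

/-- Let `X` be a hypersurface of degree at most three over a number field `K`, irreducible over
`K`, with arbitrary singularities. Then the local Zariski closures of `X(K)` at the points of
`X(L)` take only finitely many values. More precisely there are finitely many `K`-linear subspaces
of `X` such that every local closure is `X` or a union of some of these subspaces; and if `X(K)`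
is Zariski dense in `X`, then the local closure is `X` at every limit of smooth `K`-points. -/
theorem result (K : Type) [Field K] [NumberField K] (L : Type) [NontriviallyNormedField L]
    [CompleteSpace L] (σ : K →+* L) (hσ : DenseRange σ) (n d : ℕ) (hd : d ≤ 3)
    (F : MvPolynomial (Fin (n + 1)) K) (hF : F.IsHomogeneous d) (hirr : Irreducible F) :
    {J : Set (MvPolynomial (Fin (n + 1)) K) | ∃ x : Fin (n + 1) → L, x ≠ 0 ∧
      (∀ g ∈ ({F} : Set (MvPolynomial (Fin (n + 1)) K)), eval₂ σ x g = 0) ∧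
      J = localIdeal σ {F} x}.Finite ∧
    (∃ V : Set (Submodule K (Fin (n + 1) → K)), V.Finite ∧ (∀ W ∈ V, ∀ y ∈ W, eval y F = 0) ∧
      ∀ x : Fin (n + 1) → L, x ≠ 0 → (localIdeal σ {F} x = {f | F ∣ f} ∨
        ∃ A ⊆ V, localIdeal σ {F} x = {f | ∀ W ∈ A, ∀ y ∈ W, eval y f = 0})) ∧
    ((∀ f : MvPolynomial (Fin (n + 1)) K,
        (∀ y : Fin (n + 1) → K, y ≠ 0 → eval y F = 0 → eval y f = 0) → F ∣ f) →
      ∀ x : Fin (n + 1) → L, x ≠ 0 →
        (∀ U ∈ 𝓝 x, ∃ y : Fin (n + 1) → K, eval y F = 0 ∧ (∃ i, eval y (pderiv i F) ≠ 0) ∧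
          y ≠ 0 ∧ ∃ c : L, c ≠ 0 ∧ (fun i => c * σ (y i)) ∈ U) →
        localIdeal σ {F} x = {f | F ∣ f}) := by
  have := properSpace σ hσ
  obtain ⟨⟨V, hV, hVF, hx⟩, h2⟩ := Pool.Agent.MazurT.final_all (σ := σ) hσ hd hF hirr
  exact ⟨Pool.Agent.MazurT.finite_of_struct hV hx, ⟨V, hV, hVF, fun x _ => hx x⟩,
    fun hdn x _ hx => h2 hdn x hx⟩

end Pool.Agent.Results.MP_f9f755_nt.DegreeAtMostThree
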