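import Mathlib
import Pool.Agent.K3M.FIN

namespace Pool.Agent.Results.MP_f9f755_nt.TridegreeTwoSurfaces

open MvPolynomial Topology Pool.Agent.MazurC Pool.Agent.K3M

/-- Let `G` be a quadratic form in 8 variables over a number field `K` and `X` the surface of
tridegree (2,2,2) in a product of three projective lines defined by `G (x ⊗ y ⊗ z) = 0`, in its
Segre embedding (a K3 surface if it is smooth). Suppose that `X` contains, over an algebraic
closure of `K`, no line of the three rulings, i.e. that the three projections of `X` to products of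
two lines are finite. Then there is a finite set `E` of rational points, which does not depend on
the place, such that for every completion `L` of `K`:

(1) the local Zariski closures of `X(K)` at the points of `X(L)` take only finitely many values;

(2) at every limit `x` of rational points outside `E` (in particular at every rational point
outside `E`) the local Zariski closure is `X`;

(3) every local Zariski closure is `X` or a subset of `E`. -/
theorem result (K : Type) [Field K] [NumberField K] (G : MvPolynomial (Fin 8) K)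
    (hG : G.IsHomogeneous 2)
    (hX : ∀ x y : Fin 2 → AlgebraicClosure K, x ≠ 0 → y ≠ 0 →
      (∃ z, eval₂ (algebraMap K (AlgebraicClosure K)) (seg z x y) G ≠ 0) ∧
      (∃ z, eval₂ (algebraMap K (AlgebraicClosure K)) (seg x z y) G ≠ 0) ∧
      (∃ z, eval₂ (algebraMap K (AlgebraicClosure K)) (seg x y z) G ≠ 0)) :
    ∃ E : Finset (Fin 8 → K), (∀ e ∈ E, e ≠ 0 ∧ ∀ g ∈ surf G, eval e g = 0) ∧
      ∀ (L : Type) [NontriviallyNormedField L] [CompleteSpace L] (σ : K →+* L), DenseRange σ →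
      {J : Set (MvPolynomial (Fin 8) K) | ∃ x : Fin 8 → L, x ≠ 0 ∧
        (∀ g ∈ surf G, eval₂ σ x g = 0) ∧ J = localIdeal σ (surf G) x}.Finite ∧
      (∀ x : Fin 8 → L,
        (∀ U ∈ 𝓝 x, ∃ y : Fin 8 → K, y ≠ 0 ∧ (∀ g ∈ surf G, eval y g = 0) ∧
          (∀ e ∈ E, ∀ t : K, y ≠ t • e) ∧ ∃ c : L, c ≠ 0 ∧ (fun i => c * σ (y i)) ∈ U) →
        localIdeal σ (surf G) x = {f | ∀ u : Fin 8 → AlgebraicClosure K,
          (∀ g ∈ surf G, eval₂ (algebraMap K (AlgebraicClosure K)) u g = 0) →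
            eval₂ (algebraMap K (AlgebraicClosure K)) u f = 0}) ∧
      ∀ x : Fin 8 → L,
        localIdeal σ (surf G) x = {f | ∀ u : Fin 8 → AlgebraicClosure K,
          (∀ g ∈ surf G, eval₂ (algebraMap K (AlgebraicClosure K)) u g = 0) →
            eval₂ (algebraMap K (AlgebraicClosure K)) u f = 0} ∨
        ∃ S ⊆ E, localIdeal σ (surf G) x = {f | ∀ e ∈ S, ∀ t : K, eval (t • e) f = 0} := by
  have hNL : NL G := by
    intro π y z hy hz
    obtain ⟨⟨a, ha⟩, ⟨b, hb⟩, ⟨c, hc⟩⟩ := hX y z hy hz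
    obtain ⟨⟨a', ha'⟩, ⟨b', hb'⟩, ⟨c', hc'⟩⟩ := hX z y hz hy
    have h6 : ∀ π : Equiv.Perm (Fin 3),
        (π.symm 0 = 0 ∧ π.symm 1 = 1 ∧ π.symm 2 = 2) ∨
        (π.symm 0 = 0 ∧ π.symm 1 = 2 ∧ π.symm 2 = 1) ∨
        (π.symm 0 = 1 ∧ π.symm 1 = 0 ∧ π.symm 2 = 2) ∨
        (π.symm 0 = 2 ∧ π.symm 1 = 0 ∧ π.symm 2 = 1) ∨
        (π.symm 0 = 1 ∧ π.symm 1 = 2 ∧ π.symm 2 = 0) ∨
        (π.symm 0 = 2 ∧ π.symm 1 = 1 ∧ π.symm 2 = 0) := by decide
    rcases h6 π with h | h | h | h | h | h <;> obtain ⟨h0, h1, h2⟩ := h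
    · exact ⟨a, by rw [segp_eq_seg, h0, h1, h2]; exact ha⟩
    · exact ⟨a', by rw [segp_eq_seg, h0, h1, h2]; exact ha'⟩
    · exact ⟨b, by rw [segp_eq_seg, h0, h1, h2]; exact hb⟩
    · exact ⟨b', by rw [segp_eq_seg, h0, h1, h2]; exact hb'⟩
    · exact ⟨c, by rw [segp_eq_seg, h0, h1, h2]; exact hc⟩
    · exact ⟨c', by rw [segp_eq_seg, h0, h1, h2]; exact hc'⟩
  classical
  obtain ⟨E, hE0, hE⟩ := final hG hNL
  refine ⟨E, hE0, ?_⟩
  intro L _ _ σ hσ
  have := properSpace σ hσ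
  obtain ⟨h1, h2⟩ := hE L σ hσ
  have h3 : ∀ x : Fin 8 → L, localIdeal σ (surf G) x = IX G ∨
      ∃ S ⊆ E, localIdeal σ (surf G) x = {f | ∀ e ∈ S, ∀ t : K, eval (t • e) f = 0} := by
    intro x
    rcases h2 x with h | ⟨S, hS, h⟩
    · exact Or.inl h
    · refine Or.inr ⟨E.filter (fun e => e ∈ S), Finset.filter_subset _ _, h.trans ?_⟩
      ext f
      constructor
      · intro hf e he
        exact hf e (Finset.mem_filter.1 he).2
      · intro hf e he
        exact hf e (Finset.mem_filter.2 ⟨hS he, he⟩)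
  refine ⟨?_, ?_, h3⟩
  · refine ((Set.finite_singleton (IX G)).union ((E.powerset.finite_toSet).image
      fun S : Finset (Fin 8 → K) =>
        {f : MvPolynomial (Fin 8) K | ∀ e ∈ S, ∀ t : K, eval (t • e) f = 0})).subset ?_
    rintro J ⟨x, _, _, rfl⟩
    rcases h3 x with h | ⟨S, hS, h⟩
    · exact Or.inl h
    · exact Or.inr ⟨S, Finset.mem_coe.2 (Finset.mem_powerset.2 hS), h.symm⟩
  · intro x hx
    refine h1 x fun U hU => ?_
    obtain ⟨y, hy0, hy, hyE, c, hc, hcU⟩ := hx U hU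
    exact ⟨y, hy, hy0, ⟨c, hc, hcU⟩, hyE⟩

end Pool.Agent.Results.MP_f9f755_nt.TridegreeTwoSurfaces
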