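import Mathlib
import Pool.Agent.MazurQ.Lin

namespace Pool.Agent.Results.MP_f9f755_nt.TwoQuadrics

open MvPolynomial Topology Pool.Agent.MazurC

/-- Let `F`, `G` be quadratic forms over a number field `K` in `n + 1` variables (any quadratic
forms: the quadrics may be singular, reducible or equal, the intersection may be reducible or of
codimension one) and let `L` be a completion of `K`.

(1) For every set `Λ` of linear forms, the local Zariski closures of `X(K)` at the points of
`X(L)`, `X` the intersection of the two quadrics with the linear space `Λ = 0`, take only finitely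
many values.

(2) If the ideal `(F, G)` is prime and `X(K)` is Zariski dense in `X : F = G = 0`, then the local
closure is `X` at every limit of rational points at which the Jacobian matrix of `F, G` has rank
two. -/
theorem result (K : Type) [Field K] [NumberField K] (L : Type) [NontriviallyNormedField L]
    [CompleteSpace L] (σ : K →+* L) (hσ : DenseRange σ) (n : ℕ)
    (F G : MvPolynomial (Fin (n + 1)) K) (hF : F.IsHomogeneous 2) (hG : G.IsHomogeneous 2) :
    (∀ Λ : Set (MvPolynomial (Fin (n + 1)) K), (∀ l ∈ Λ, l.IsHomogeneous 1) →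
      {J : Set (MvPolynomial (Fin (n + 1)) K) | ∃ x : Fin (n + 1) → L, x ≠ 0 ∧
        (∀ g ∈ Λ ∪ {F, G}, eval₂ σ x g = 0) ∧ J = localIdeal σ (Λ ∪ {F, G}) x}.Finite) ∧
    ((Ideal.span {F, G}).IsPrime →
      (∀ f : MvPolynomial (Fin (n + 1)) K,
        (∀ y : Fin (n + 1) → K, y ≠ 0 → eval y F = 0 → eval y G = 0 → eval y f = 0) →
          f ∈ Ideal.span {F, G}) →
      ∀ x : Fin (n + 1) → L, x ≠ 0 →
        (∀ U ∈ 𝓝 x, ∃ y : Fin (n + 1) → K, eval y F = 0 ∧ eval y G = 0 ∧
          (∃ i j, eval y (pderiv i F) * eval y (pderiv j G) ≠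
            eval y (pderiv j F) * eval y (pderiv i G)) ∧
          ∃ c : L, c ≠ 0 ∧ (fun i => c * σ (y i)) ∈ U) →
        localIdeal σ {F, G} x = {f | f ∈ Ideal.span {F, G}}) := by
  have := properSpace σ hσ
  refine ⟨fun Λ hΛ => Pool.Agent.MazurQ.finite_lin hσ hΛ hF hG rfl, ?_⟩
  intro hp hd x _ hx
  exact (Pool.Agent.MazurQ.final_two hσ hF hG).2 hp hd x hx

end Pool.Agent.Results.MP_f9f755_nt.TwoQuadrics
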